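import Pool.Agent.Lib.MP_80160f_co.Vert

/-!
# MP_80160f_co : three parts with the flow property of 2-bases

Let `H` be a 3-connected cubic graph, `v` a vertex and `G = H - v`. Every 2-base `B₁` of `G` with
connected complement (there is one, by the theorem of Jaeger, Linial, Payan and Tarsi, which is proved
here as well) is part of a partition `B₁, B₂, B₃` of the edges of `G` into three sets of equal size
such that each `Bᵢ` has the flow property of 2-bases: for every abelian group with at least three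
elements and for all forbidden values there is a flow which takes no forbidden value outside of `Bᵢ`.
-/

set_option autoImplicit false

namespace Pool.Agent.Results.MP_80160f_co.AvoidSplit

open TB

theorem result {V : Type*} [Fintype V] [DecidableEq V] (H : SimpleGraph V)
    (hH : ThreeConnectedCubic H) (v : V) :
    (∃ B₁ : Set (Sym2 ({v}ᶜ : Set V)), IsKBase (H.induce ({v}ᶜ : Set V)) 2 B₁ ∧
      ((H.induce ({v}ᶜ : Set V)).deleteEdges B₁).Connected) ∧
    ∀ B₁ : Set (Sym2 ({v}ᶜ : Set V)), IsKBase (H.induce ({v}ᶜ : Set V)) 2 B₁ →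
      ((H.induce ({v}ᶜ : Set V)).deleteEdges B₁).Connected →
      ∃ B₂ B₃ : Set (Sym2 ({v}ᶜ : Set V)),
        Disjoint B₁ B₂ ∧ Disjoint B₁ B₃ ∧ Disjoint B₂ B₃ ∧
        B₁ ∪ B₂ ∪ B₃ = (H.induce ({v}ᶜ : Set V)).edgeSet ∧
        B₁.ncard = B₂.ncard ∧ B₁.ncard = B₃.ncard ∧
        ∀ (Γ : Type*) [AddCommGroup Γ], (∃ a b : Γ, a ≠ 0 ∧ b ≠ 0 ∧ a ≠ b) →
          Avoids Γ (H.induce ({v}ᶜ : Set V)) B₁ ∧ Avoids Γ (H.induce ({v}ᶜ : Set V)) B₂ ∧
          Avoids Γ (H.induce ({v}ᶜ : Set V)) B₃ := by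
  have h3 := cubic3_of hH
  exact ⟨exists_base h3 v, fun B₁ h1 h2 => split_of_base h1 h2 (card_edges_del h3 v)⟩

end Pool.Agent.Results.MP_80160f_co.AvoidSplit
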