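import Pool.Agent.Lib.MP_80160f_co.Frac.Graph

/-!
# MP_80160f_co : fractional partitions into three 2-bases

Let `H` be a 3-connected cubic graph, `v` a vertex and `G = H - v`. There are `3 N` 2-bases of `G`, each
with exactly a third of the edges of `G`, such that every edge of `G` is in exactly `N` of them. The
question Q1 of the problem asks for `N = 1`. Equivalently, for every weight of the edges there is a 2-base
with at most a third of the total weight.
-/

set_option autoImplicit false

namespace Pool.Agent.Results.MP_80160f_co.FractionalQ1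

open TB

theorem result {V : Type*} [Fintype V] (H : SimpleGraph V) (hH : ThreeConnectedCubic H) (v : V) :
    ∃ (N : ℕ) (B : Fin (3 * N) → Set (Sym2 ({v}ᶜ : Set V))), 0 < N ∧
      (∀ i, IsKBase (H.induce ({v}ᶜ : Set V)) 2 (B i) ∧
        3 * (B i).ncard = (H.induce ({v}ᶜ : Set V)).edgeSet.ncard) ∧
      ∀ e ∈ (H.induce ({v}ᶜ : Set V)).edgeSet, {i | e ∈ B i}.ncard = N := by
  classical
  exact Frac.frac_del (cubic3_of hH) v

end Pool.Agent.Results.MP_80160f_co.FractionalQ1
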