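import Pool.Agent.Lib.MP_80160f_co.PL.All

/-!
# MP_80160f_co : three 2-bases if there is no K33 minor

Let `H` be a 3-connected cubic graph and `v` a vertex such that `H` has no model of the complete
bipartite graph K33 as a minor in which `{v}` is a branch set (for instance, `H` has no K33 minor at
all). Then the edge set of `H - v` is the disjoint union of three 2-bases of `H - v`.

The proof processes the graph along nonseparating ears. The three sets are the edges inside of the ears,
the left end edges and the right end edges, with respect to a left-right order of the unfinished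
vertices, which exists as long as there is no such minor.
-/

set_option autoImplicit false

namespace Pool.Agent.Results.MP_80160f_co.NoK33Minor

open TB TB.PL

theorem result {V : Type*} [Fintype V] [DecidableEq V] (H : SimpleGraph V)
    (hH : ThreeConnectedCubic H) (v : V)
    (hK : ¬ ∃ A B : Fin 3 → Set V, K33Model H A B ∧ B 0 = {v}) :
    ∃ B₁ B₂ B₃ : Set (Sym2 ({v}ᶜ : Set V)),
      Disjoint B₁ B₂ ∧ Disjoint B₁ B₃ ∧ Disjoint B₂ B₃ ∧
      B₁ ∪ B₂ ∪ B₃ = (H.induce ({v}ᶜ : Set V)).edgeSet ∧
      IsKBase (H.induce ({v}ᶜ : Set V)) 2 B₁ ∧ IsKBase (H.induce ({v}ᶜ : Set V)) 2 B₂ ∧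
      IsKBase (H.induce ({v}ᶜ : Set V)) 2 B₃ :=
  main V H v (cubic3_of hH) fun A B hAB hB => hK ⟨A, B, hAB, hB⟩

end Pool.Agent.Results.MP_80160f_co.NoK33Minor
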