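import Pool.Agent.Lib.MP_80160f_co.TT.All

/-!
# MP_80160f_co : two of the three classes are 2-bases

Let `H` be a 3-connected cubic graph, `v` a vertex and `G = H - v`. Then the edge set of `G` is the disjoint
union of three sets of the same size, the complement of each of them is a spanning tree of `G`, and two of
them are 2-bases of `G`.

The proof processes the graph along nonseparating ears. The three sets are the edges inside of the ears, the
left end edges and the right end edges, where the ears are directed by a potential with different values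
at the unfinished vertices. The first and the third set are 2-bases.
-/

set_option autoImplicit false

namespace Pool.Agent.Results.MP_80160f_co.TwoOfThree

open TB TB.TT

theorem result {V : Type*} [Fintype V] [DecidableEq V] (H : SimpleGraph V)
    (hH : ThreeConnectedCubic H) (v : V) :
    ∃ B₁ B₂ B₃ : Set (Sym2 ({v}ᶜ : Set V)),
      Disjoint B₁ B₂ ∧ Disjoint B₁ B₃ ∧ Disjoint B₂ B₃ ∧
      B₁ ∪ B₂ ∪ B₃ = (H.induce ({v}ᶜ : Set V)).edgeSet ∧
      3 * B₁.ncard = (H.induce ({v}ᶜ : Set V)).edgeSet.ncard ∧
      3 * B₂.ncard = (H.induce ({v}ᶜ : Set V)).edgeSet.ncard ∧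
      3 * B₃.ncard = (H.induce ({v}ᶜ : Set V)).edgeSet.ncard ∧
      ((H.induce ({v}ᶜ : Set V)).deleteEdges B₁).IsTree ∧
      ((H.induce ({v}ᶜ : Set V)).deleteEdges B₂).IsTree ∧
      ((H.induce ({v}ᶜ : Set V)).deleteEdges B₃).IsTree ∧
      IsKBase (H.induce ({v}ᶜ : Set V)) 2 B₁ ∧ IsKBase (H.induce ({v}ᶜ : Set V)) 2 B₃ :=
  main V H v (cubic3_of hH)

end Pool.Agent.Results.MP_80160f_co.TwoOfThree
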